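import Pool.Agent.Y122.CR.Many

/-!
# Continuum many finitely generated `C^{k,Lip}` groups which are not `C^{k+1}` groups

The group `N` of the library theorem `W331.CR.final02` is multiplied by the continuum many
groups of `Y122.CR.many`.
-/

set_option autoImplicit false

open Set Filter Topology Function Cardinal
open scoped ContDiff

namespace Pool.Agent.X171.Lip

open Pool.Agent.W331.CR Pool.Agent.Y122.CR

/-- the group of `C^{k,Lip}` diffeomorphisms of the line which are the identity outside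
`(1/4,3/4)` -/
def LipG (k : ℕ) (hk : 1 ≤ k) : Subgroup (ℝ ≃o ℝ) where
  carrier := {F | F ∈ LipCS k ∧ F⁻¹ ∈ LipCS k}
  mul_mem' := by
    rintro F G ⟨h1, h2⟩ ⟨h3, h4⟩
    exact ⟨s_lipmul k hk _ _ h1 h3, by rw [mul_inv_rev]; exact s_lipmul k hk _ _ h4 h2⟩
  one_mem' := by
    have h1 : (1 : ℝ ≃o ℝ) ∈ LipCS k :=
      ⟨(CS k).one_mem, smooth_lip contDiff_id (fun _ _ => rfl) k hk⟩
    exact ⟨h1, by rw [inv_one]; exact h1⟩
  inv_mem' := by
    rintro F ⟨h1, h2⟩
    exact ⟨h2, by rw [inv_inv]; exact h1⟩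

lemma lipG_le (k : ℕ) (hk : 1 ≤ k) : LipG k hk ≤ Sup := fun _ hF => hF.1.1.1

/-- embedding in the group of the interval -/
lemma lip_toI (k : ℕ) (hk : 1 ≤ k) :
    ∃ φ : LipG k hk →* (Icc (0:ℝ) 1 ≃o Icc (0:ℝ) 1), Injective φ ∧ ∀ F, φ F ∈ LipI k := by
  obtain ⟨φ, hφ, hφ2⟩ := s_toI
  refine ⟨φ.comp (Subgroup.inclusion (lipG_le k hk)),
    hφ.comp (Subgroup.inclusion_injective _), fun F => ?_⟩
  have hext : ∀ (F : Sup), ∀ x ∈ Icc (0:ℝ) 1, ext01 (φ F) x = (F : ℝ ≃o ℝ) x := by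
    intro F x hx
    rw [← hφ2 F ⟨x, hx⟩]
    exact ext01_coe (φ F) ⟨x, hx⟩
  obtain ⟨⟨⟨g1, g2, g3⟩, K, hK⟩, -⟩ := F.2
  set F' := Subgroup.inclusion (lipG_le k hk) F with hF'
  show φ F' ∈ LipI k
  have g2' : ContDiff ℝ k (F' : ℝ ≃o ℝ) := g2
  have g3' : ContDiff ℝ k ((F' : ℝ ≃o ℝ)⁻¹ : ℝ ≃o ℝ) := g3
  refine ⟨⟨?_, ?_⟩, K, ?_⟩
  · exact g2'.contDiffOn.congr (hext F')
  · rw [← map_inv]
    exact ContDiffOn.congr (f := ((F' : ℝ ≃o ℝ)⁻¹ : ℝ ≃o ℝ)) g3'.contDiffOn (hext F'⁻¹)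
  · have e : EqOn (iteratedDerivWithin k (ext01 (φ F')) (Icc 0 1))
        (iteratedDeriv k (F' : ℝ ≃o ℝ)) (Icc 0 1) := by
      intro x hx
      rw [iteratedDerivWithin_congr (hext F') hx]
      exact iteratedDerivWithin_eq_iteratedDeriv (uniqueDiffOn_Icc zero_lt_one)
        g2'.contDiffAt hx
    intro a ha b hb
    rw [e ha, e hb]
    exact hK a b

/-- embedding in the group of the circle -/
lemma lip_toS (k : ℕ) (hk : 1 ≤ k) :
    ∃ φ : LipG k hk →* Equiv.Perm (AddCircle (1:ℝ)), Injective φ ∧ ∀ F, φ F ∈ LipS k := by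
  obtain ⟨φ, hφ, hφ2⟩ := s_toS
  refine ⟨φ.comp (Subgroup.inclusion (lipG_le k hk)),
    hφ.comp (Subgroup.inclusion_injective _), fun F => ?_⟩
  obtain ⟨⟨⟨g1, g2, g3⟩, hK⟩, -⟩ := F.2
  obtain ⟨P, p1, p2, p3, p4, p5⟩ := hφ2 (Subgroup.inclusion (lipG_le k hk) F)
  exact ⟨P, ⟨p1, p3 _ g2, p4 _ g3⟩, p5 k g2 hK, p2⟩

/-- `C^{k+1}` maps with compact support have Lipschitz derivatives of order `k` -/
lemma succ_lip {F : ℝ ≃o ℝ} (k : ℕ) (hk : 1 ≤ k) (hF : ContDiff ℝ (k + 1 : ℕ) F)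
    (hs : ∀ x, x ∉ Ioo (1/4 : ℝ) (3/4) → F x = x) :
    ∃ K, LipschitzWith K (iteratedDeriv k (F : ℝ → ℝ)) := by
  have hd : Differentiable ℝ (iteratedDeriv k (F : ℝ → ℝ)) :=
    hF.differentiable_iteratedDeriv k (by exact_mod_cast Nat.lt_succ_self k)
  have hz : ∀ x, x ∉ Icc (1/4 : ℝ) (3/4) → iteratedDeriv (k + 1) (F : ℝ → ℝ) x = 0 := by
    intro x hx
    have h1 : (F : ℝ → ℝ) =ᶠ[𝓝 x] id := by
      filter_upwards [isClosed_Icc.isOpen_compl.mem_nhds hx] with t ht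
      exact hs t (fun h => ht ⟨h.1.le, h.2.le⟩)
    rw [h1.iteratedDeriv_eq]
    have h2 : iteratedDeriv (k + 1) (id : ℝ → ℝ) = fun _ => 0 := by
      obtain ⟨m, rfl⟩ : ∃ m, k = m + 1 := ⟨k - 1, by omega⟩
      rw [iteratedDeriv_succ', iteratedDeriv_succ']
      have : deriv (id : ℝ → ℝ) = fun _ => (1:ℝ) := by funext t; simp
      rw [this]
      have h3 : deriv (fun _ : ℝ => (1:ℝ)) = fun _ => 0 := by funext t; simp
      rw [h3]
      funext t
      simp
    rw [h2]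
  have hc : Continuous (iteratedDeriv (k + 1) (F : ℝ → ℝ)) :=
    hF.continuous_iteratedDeriv (k + 1) (by exact_mod_cast le_rfl)
  obtain ⟨C, hC⟩ := isCompact_Icc.exists_bound_of_continuousOn (s := Icc (1/4 : ℝ) (3/4))
    hc.continuousOn
  refine ⟨Real.toNNReal C, ?_⟩
  apply lipschitzWith_of_nnnorm_deriv_le hd
  intro x
  rw [← iteratedDeriv_succ]
  rw [← NNReal.coe_le_coe, coe_nnnorm, Real.coe_toNNReal']
  by_cases hx : x ∈ Icc (1/4 : ℝ) (3/4)
  · exact (hC x hx).trans (le_max_left _ _)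
  · rw [hz x hx, norm_zero]; exact le_max_right _ _

lemma cs_le_lipG (k : ℕ) (hk : 1 ≤ k) : CS (k + 1 : ℕ) ≤ LipG k hk := by
  have key : ∀ F : ℝ ≃o ℝ, F ∈ CS (k + 1 : ℕ) → F ∈ LipCS k := by
    rintro F ⟨h1, h2, h3⟩
    have le : ((k : ℕ) : WithTop ℕ∞) ≤ ((k + 1 : ℕ) : WithTop ℕ∞) := by
      exact_mod_cast Nat.le_succ k
    exact ⟨⟨h1, h2.of_le le, h3.of_le le⟩, succ_lip k hk h2 h1⟩
  intro F hF
  exact ⟨key F hF, key _ ((CS (k + 1 : ℕ)).inv_mem hF)⟩

/-- the coordinate composed with an affine map -/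
lemma coord_aff {κ : ℝ → ℝ} (hκ : IsCoord κ 0 1) (u c : ℝ) (hc : 0 < c) :
    IsCoord (fun t => u + κ t * c) u (u + c) where
  sm := contDiff_const.add (hκ.sm.mul contDiff_const)
  pos := fun t => by
    have hd : DifferentiableAt ℝ κ t := (hκ.sm.differentiable (by simp)) t
    have : HasDerivAt (fun t => u + κ t * c) (deriv κ t * c) t :=
      (hd.hasDerivAt.mul_const _).const_add _
    rw [this.deriv]
    exact mul_pos (hκ.pos t) hc
  rng := by
    have h := hκ.rng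
    ext x
    constructor
    · rintro ⟨t, rfl⟩
      have h1 : κ t ∈ Ioo (0:ℝ) 1 := h ▸ mem_range_self t
      simp only
      constructor <;> nlinarith [h1.1, h1.2]
    · rintro ⟨h1, h2⟩
      have : (x - u) / c ∈ range κ := by
        rw [h]
        constructor
        · apply div_pos <;> linarith
        · rw [div_lt_one hc]; linarith
      obtain ⟨t, ht⟩ := this
      exact ⟨t, by simp only [ht]; field_simp; ring⟩

/-- conjugation by a coordinate -/
lemma exists_conj (k : ℕ) (hk : 1 ≤ k) (α β : ℝ) (hα : 1 / 4 ≤ α) (hαβ : α < β)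
    (hβ : β ≤ 3 / 4) :
    ∃ C : LipG k hk →* LipG k hk, Injective C ∧
      ∀ F, ∀ x, x ∉ Ioo α β → (C F : ℝ ≃o ℝ) x = x := by
  obtain ⟨κ, hκ, -⟩ := s_flataff
  have hκ' := coord_aff hκ α (β - α) (by linarith)
  rw [show α + (β - α) = β by ring] at hκ'
  set C := conjHom s_conj hκ' with hC
  have hCc := conjHom_isConj s_conj hκ'
  have hsupp : ∀ F, ∀ x, x ∉ Ioo α β → C F x = x := by
    intro F x hx
    apply (hCc F).outside
    rwa [hκ'.rng]
  have hout : ∀ x, x ∉ Ioo (1/4 : ℝ) (3/4) → x ∉ Ioo α β := fun x hx h =>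
    hx ⟨by linarith [h.1], by linarith [h.2]⟩
  have le : ((k : ℕ) : WithTop ℕ∞) ≤ ∞ := by exact_mod_cast le_top
  have cpt : ∀ F ∈ LipCS k, ∃ A B : ℝ, ∀ x, x ∉ Icc A B → F x = x := fun F hF =>
    ⟨1/4, 3/4, fun x hx => hF.1.1 x fun h => hx ⟨h.1.le, h.2.le⟩⟩
  have key : ∀ F, F ∈ LipCS k → F⁻¹ ∈ LipCS k → C F ∈ LipCS k := by
    intro F hF hF'
    refine ⟨⟨fun x hx => hsupp F x (hout x hx), ?_, ?_⟩, ?_⟩
    · exact conjHom_sm s_conj hκ' F k le hF.1.2.1 (cpt F hF)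
    · rw [← map_inv]
      exact conjHom_sm s_conj hκ' F⁻¹ k le hF'.1.2.1 (cpt _ hF')
    · exact s_conjlip _ _ _ hκ' F _ (hCc F) (cpt F hF) k hk hF.1.2.1 hF.2
  have hmem : ∀ F : LipG k hk, C (F : ℝ ≃o ℝ) ∈ LipG k hk := fun F =>
    ⟨key _ F.2.1 F.2.2, by
      rw [← map_inv]
      exact key _ F.2.2 (by rw [inv_inv]; exact F.2.1)⟩
  refine ⟨(C.comp (LipG k hk).subtype).codRestrict _ hmem, ?_, fun F => hsupp _⟩
  intro F F' h
  have h1 : C (F : ℝ ≃o ℝ) = C (F' : ℝ ≃o ℝ) := congrArg Subtype.val h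
  apply Subtype.ext
  refine RelIso.ext fun t => ?_
  have hinj : Injective (fun t => α + κ t * (β - α)) :=
    (strictMono_of_deriv_pos hκ'.pos).injective
  apply hinj
  have e1 := (hCc (F : ℝ ≃o ℝ)).inside t
  have e2 := (hCc (F' : ℝ ≃o ℝ)).inside t
  rw [← h1] at e2
  exact e1.symm.trans e2

/-- the product of two subgroups acts -/
lemma exists_prod (k : ℕ) (hk : 1 ≤ k) {Γ H : Type} [Group Γ] [Group H] (a : Γ →* LipG k hk)
    (ha : Injective a) (b : H →* LipG k hk) (hb : Injective b) :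
    ∃ c : Γ × H →* LipG k hk, Injective c := by
  obtain ⟨C1, i1, s1⟩ := exists_conj k hk (1/4) (1/2) le_rfl (by norm_num) (by norm_num)
  obtain ⟨C2, i2, s2⟩ := exists_conj k hk (1/2) (3/4) (by norm_num) (by norm_num) le_rfl
  have hcomm : ∀ m n, Commute ((C1.comp a) m) ((C2.comp b) n) := by
    intro m n
    have h1 := commute_of_disj (P := (C2 (b n) : ℝ ≃o ℝ)) (Q := (C1 (a m) : ℝ ≃o ℝ))
      (Ioo (1/4) (1/2)) (fun x hx => s2 _ x fun h => by linarith [hx.2, h.1]) (s1 _)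
    exact Subtype.ext h1.symm.eq
  refine ⟨MonoidHom.noncommCoprod (C1.comp a) (C2.comp b) hcomm, ?_⟩
  rw [injective_iff_map_eq_one]
  rintro ⟨m, n⟩ hmn
  rw [MonoidHom.noncommCoprod_apply] at hmn
  have hval : ∀ x, (C1 (a m) : ℝ ≃o ℝ) ((C2 (b n) : ℝ ≃o ℝ) x) = x := by
    intro x
    have := congrArg (fun F : LipG k hk => (F : ℝ ≃o ℝ) x) hmn
    exact this
  have h1 : C1 (a m) = 1 := by
    apply Subtype.ext
    refine RelIso.ext fun x => ?_
    show (C1 (a m) : ℝ ≃o ℝ) x = x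
    by_cases hx : x ∈ Ioo (1/4 : ℝ) (1/2)
    · have := hval x
      rwa [s2 _ x fun h => by linarith [hx.2, h.1]] at this
    · exact s1 _ x hx
  have h2 : C2 (b n) = 1 := by
    apply Subtype.ext
    refine RelIso.ext fun x => ?_
    have := hval x
    rw [h1] at this
    exact this
  have h3 : a m = 1 := i1 (by rw [h1, map_one])
  have h4 : b n = 1 := i2 (by rw [h2, map_one])
  have h5 : m = 1 := ha (by rw [h3, map_one])
  have h6 : n = 1 := hb (by rw [h4, map_one])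
  rw [h5, h6]
  rfl

lemma killI02 {k : ℕ} (hk : 1 ≤ k) {G : Type} [Group G] {t v h y f : G}
    (r : Rel02 k t v h y f) (φ : G →* DiffI (k + 1 : ℕ)) : φ y = 1 := by
  by_contra hne
  have r' := r.map φ.rangeRestrict
  have hne' : φ.rangeRestrict y ≠ 1 := fun h' => hne (congrArg Subtype.val h')
  exact s_no02I t_rigid02 s_setupI k hk φ.range _ _ _ _ _ r' hne'
    ⟨φ.range.subtype, Subtype.coe_injective⟩

lemma killS02 {k : ℕ} (hk : 1 ≤ k) {G : Type} [Group G] {t v h y f : G}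
    (r : Rel02 k t v h y f) (φ : G →* DiffS (k + 1 : ℕ)) : φ y = 1 := by
  by_contra hne
  have r' := r.map φ.rangeRestrict
  have hne' : φ.rangeRestrict y ≠ 1 := fun h' => hne (congrArg Subtype.val h')
  exact s_no02S t_rigid02 s_liftcomm s_liftbs s_setupS k hk φ.range _ _ _ _ _ r' hne'
    ⟨φ.range.subtype, Subtype.coe_injective⟩

/-- the basic group -/
lemma basic (k : ℕ) (hk : 1 ≤ k) : ∃ (Γ : Type) (_ : Group Γ) (a : Γ →* LipG k hk)
    (t v h y f : Γ), Group.FG Γ ∧ Injective a ∧ Rel02 k t v h y f ∧ y ≠ 1 := by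
  obtain ⟨t, v, h, y, f, R, hy, hS⟩ := s_exist02 s_flataff s_conj s_conjlip s_f02 k hk
  have ht := hS t (by simp)
  have hv := hS v (by simp)
  have hh := hS h (by simp)
  have hy' := hS y (by simp)
  have hf := hS f (by simp)
  set T : LipG k hk := ⟨t, ht⟩
  set V : LipG k hk := ⟨v, hv⟩
  set Hh : LipG k hk := ⟨h, hh⟩
  set Y : LipG k hk := ⟨y, hy'⟩
  set Ff : LipG k hk := ⟨f, hf⟩
  have R1 : Rel02 k T V Hh Y Ff := Rel02.of_map (LipG k hk).subtype Subtype.coe_injective R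
  set N := Subgroup.closure ({T, V, Hh, Y, Ff} : Set (LipG k hk)) with hN
  have mem : ∀ F ∈ ({T, V, Hh, Y, Ff} : Set (LipG k hk)), F ∈ N := fun F hF =>
    Subgroup.subset_closure hF
  refine ⟨N, inferInstance, N.subtype, ⟨T, mem _ (by simp)⟩, ⟨V, mem _ (by simp)⟩,
    ⟨Hh, mem _ (by simp)⟩, ⟨Y, mem _ (by simp)⟩, ⟨Ff, mem _ (by simp)⟩, ?_,
    Subtype.coe_injective, ?_, ?_⟩
  · rw [Group.fg_iff_subgroup_fg, Subgroup.fg_iff]
    exact ⟨_, rfl, by simp⟩
  · exact Rel02.of_map N.subtype Subtype.coe_injective R1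
  · intro h1
    have h2 : Y = 1 := congrArg Subtype.val h1
    exact hy (congrArg Subtype.val h2)

/-- counting -/
theorem select' {X : Type} (hX : 𝔠 ≤ #X) (G : X → Type) [∀ s, Group (G s)]
    (hc : ∀ s, Countable (G s)) (a : ∀ s, List (G s))
    (hd : ∀ s t, s ≠ t → ∀ φ : G s ≃* G t, (a s).map φ = a t → False) :
    ∃ u : ℝ → X, ∀ r r', r ≠ r' → IsEmpty (G (u r) ≃* G (u r')) := by
  classical
  let st : Setoid X :=
    { r := fun s t => Nonempty (G s ≃* G t)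
      iseqv := ⟨fun s => ⟨MulEquiv.refl _⟩, fun ⟨φ⟩ => ⟨φ.symm⟩, fun ⟨φ⟩ ⟨ψ⟩ => ⟨φ.trans ψ⟩⟩ }
  have hcl : ∀ q : Quotient st, Countable {s : X // Quotient.mk st s = q} := by
    intro q
    obtain ⟨t, rfl⟩ := Quotient.exists_rep q
    have hφ : ∀ s : {s : X // Quotient.mk st s = Quotient.mk st t}, Nonempty (G s.1 ≃* G t) :=
      fun s => Quotient.exact s.2
    have : Countable (List (G t)) := by
      have := hc t
      infer_instance
    refine Function.Injective.countable (β := List (G t))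
      (f := fun s => (a s.1).map (hφ s).some) ?_
    intro s s' hss
    by_contra hne
    refine hd s.1 s'.1 (fun h => hne (Subtype.ext h)) ((hφ s).some.trans (hφ s').some.symm) ?_
    simp only at hss
    have h1 := congrArg (List.map (hφ s').some.symm) hss
    rw [List.map_map, List.map_map] at h1
    rw [show (⇑(hφ s').some.symm ∘ ⇑(hφ s').some) = id from
      funext fun x => (hφ s').some.symm_apply_apply x, List.map_id] at h1
    exact h1
  have h1 : #X ≤ #(Quotient st) * ℵ₀ := by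
    have e1 : #X = #(Σ q : Quotient st, {s : X // Quotient.mk st s = q}) :=
      (Cardinal.mk_congr (Equiv.sigmaFiberEquiv (Quotient.mk st))).symm
    rw [e1, Cardinal.mk_sigma]
    refine (Cardinal.sum_le_sum _ (fun _ => ℵ₀) fun q => ?_).trans ?_
    · have := hcl q
      exact Cardinal.mk_le_aleph0
    · rw [Cardinal.sum_const']
  have h2 : 𝔠 ≤ #(Quotient st) := by
    by_contra hlt
    push Not at hlt
    have h3 : 𝔠 ≤ #(Quotient st) * ℵ₀ := hX.trans h1
    have h4 : #(Quotient st) * ℵ₀ < 𝔠 :=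
      Cardinal.mul_lt_of_lt Cardinal.aleph0_le_continuum hlt Cardinal.aleph0_lt_continuum
    exact absurd h3 (not_le.2 h4)
  have h5 : #ℝ ≤ #(Quotient st) := by rw [Cardinal.mk_real]; exact h2
  obtain ⟨g⟩ := (Cardinal.le_def _ _).1 h5
  refine ⟨fun r => (g r).out, fun r r' hrr => ⟨fun φ => hrr (g.injective ?_)⟩⟩
  have : (g r).out ≈ (g r').out := ⟨φ⟩
  have h6 := Quotient.sound this
  rwa [Quotient.out_eq, Quotient.out_eq] at h6

/-- an isomorphism of products which matches generators of the second factors -/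
lemma iso_of_prod {Γ A B : Type} [Group Γ] [Group A] [Group B] (φ : Γ × A ≃* Γ × B)
    (l : List A) (l' : List B) (hl : Subgroup.closure {x | x ∈ l} = ⊤)
    (hl' : Subgroup.closure {x | x ∈ l'} = ⊤)
    (h : (l.map fun x => ((1, x) : Γ × A)).map φ = l'.map fun x => ((1, x) : Γ × B)) :
    Nonempty (A ≃* B) := by
  have hA : Subgroup.closure {p | p ∈ l.map fun x => ((1, x) : Γ × A)} =
      (MonoidHom.inr Γ A).range := by
    rw [MonoidHom.range_eq_map, ← hl, MonoidHom.map_closure]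
    congr 1
    ext p
    simp
  have hB : Subgroup.closure {p | p ∈ l'.map fun x => ((1, x) : Γ × B)} =
      (MonoidHom.inr Γ B).range := by
    rw [MonoidHom.range_eq_map, ← hl', MonoidHom.map_closure]
    congr 1
    ext p
    simp
  have hAB : ((MonoidHom.inr Γ A).range).map φ.toMonoidHom = (MonoidHom.inr Γ B).range := by
    rw [← hA, ← hB, MonoidHom.map_closure, ← h]
    congr 1
    ext p
    simp
  have e1 : A ≃* (MonoidHom.inr Γ A).range :=
    MonoidHom.ofInjective (f := MonoidHom.inr Γ A) (fun x y hxy => by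
      have := congrArg Prod.snd hxy
      exact this)
  have e2 : B ≃* (MonoidHom.inr Γ B).range :=
    MonoidHom.ofInjective (f := MonoidHom.inr Γ B) (fun x y hxy => by
      have := congrArg Prod.snd hxy
      exact this)
  have e3 : (MonoidHom.inr Γ A).range ≃* ((MonoidHom.inr Γ A).range).map φ.toMonoidHom :=
    Subgroup.equivMapOfInjective _ _ φ.injective
  exact ⟨(e1.trans e3).trans ((MulEquiv.subgroupCongr hAB).trans e2.symm)⟩

/-- the final theorem -/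
theorem many_lip (k : ℕ) (hk : 1 ≤ k) : ∃ (G : ℝ → Type) (_ : ∀ r, Group (G r)),
    (∀ r, Group.FG (G r) ∧
      (∃ φ : G r →* (Icc (0:ℝ) 1 ≃o Icc (0:ℝ) 1), Injective φ ∧ ∀ g, φ g ∈ LipI k) ∧
      (∃ φ : G r →* Equiv.Perm (AddCircle (1:ℝ)), Injective φ ∧ ∀ g, φ g ∈ LipS k) ∧
      ∃ y : G r, y ≠ 1 ∧ (∀ φ : G r →* DiffI (k + 1 : ℕ), φ y = 1) ∧
        (∀ φ : G r →* DiffS (k + 1 : ℕ), φ y = 1)) ∧
    ∀ r r' : ℝ, r ≠ r' → IsEmpty (G r ≃* G r') := by
  obtain ⟨Γ, _, a, t, v, h, y, f, hΓ, ha, R, hy⟩ := basic k hk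
  obtain ⟨H, hH, h1, h2⟩ := many
  have hfg : ∀ r, ∃ l : List (H r), Subgroup.closure {x | x ∈ l} = ⊤ := by
    intro r
    obtain ⟨S, hS⟩ := (h1 r).1.out
    exact ⟨S.toList, by simpa using hS⟩
  choose l hl using hfg
  have hcount : ∀ s : ℝ, Countable (Γ × H s) := by
    intro s
    have c1 : Countable Γ := by
      obtain ⟨S, _, ρ, hρ⟩ := Group.fg_iff_exists_freeGroup_hom_surjective_finite.mp hΓ
      exact hρ.countable
    have c2 : Countable (H s) := by
      obtain ⟨S, _, ρ, hρ⟩ := Group.fg_iff_exists_freeGroup_hom_surjective_finite.mp (h1 s).1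
      exact hρ.countable
    infer_instance
  obtain ⟨u, hu⟩ := select' (X := ℝ) (by rw [Cardinal.mk_real]) (fun s => Γ × H s) hcount
    (fun s => (l s).map fun x => ((1, x) : Γ × H s)) (by
      intro s s' hss φ hφ
      obtain ⟨e⟩ := iso_of_prod φ (l s) (l s') (hl s) (hl s') hφ
      exact (h2 s s' hss).false e)
  refine ⟨fun r => Γ × H (u r), fun r => inferInstance, fun r => ?_, hu⟩
  obtain ⟨b, hb⟩ : ∃ b : H (u r) →* LipG k hk, Injective b := by
    obtain ⟨-, -, φ, hφ⟩ := (h1 (u r)).2.1 (k + 1)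
    exact ⟨(Subgroup.inclusion (cs_le_lipG k hk)).comp φ,
      (Subgroup.inclusion_injective (cs_le_lipG k hk)).comp hφ⟩
  obtain ⟨c, hc⟩ := exists_prod k hk a ha b hb
  obtain ⟨φI, iI, mI⟩ := lip_toI k hk
  obtain ⟨φS, iS, mS⟩ := lip_toS k hk
  have := hΓ
  have := (h1 (u r)).1
  refine ⟨inferInstance, ⟨φI.comp c, iI.comp hc, fun g => mI _⟩,
    ⟨φS.comp c, iS.comp hc, fun g => mS _⟩, (y, 1), fun h' => hy (congrArg Prod.fst h'), ?_, ?_⟩
  · intro φ
    exact killI02 hk R (φ.comp (MonoidHom.inl Γ (H (u r))))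
  · intro φ
    exact killS02 hk R (φ.comp (MonoidHom.inl Γ (H (u r))))

end Pool.Agent.X171.Lip
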